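import Pool.Agent.E8helper28.GS.Tail

/-! The block inequality and the inequality for the first `N` gaps. -/

open Finset Filter Topology

namespace Pool.Agent.E8helper28.GS

open Pool.Agent.Y747 Pool.Agent.TH873.EW
open SG (ord NZ)
open H177.Lat (del)

/-- the constant -/
noncomputable def c0 : ℝ := (1 / 3 - 1 / (2 * Real.pi ^ 2)) / 2

lemma mom_eq : mom (gk 1 (-1) 0) = 1 + 2 * c0 := by
  rw [mom_gk]
  unfold Vf c0
  have := Real.pi_pos
  field_simp
  ring

lemma c0_lt : c0 ≤ 1 := by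
  unfold c0
  have : 0 < 1 / (2 * Real.pi ^ 2) := by positivity
  linarith

lemma xlog_high {x y : ℝ} (hx : 0 < x) (hxy : x ≤ y) :
    y * Real.log y - x * Real.log x ≤ (y - x) * (Real.log y + 1) := by
  have hy : 0 < y := hx.trans_le hxy
  have h1 := Real.log_le_sub_one_of_pos (div_pos hy hx)
  rw [Real.log_div hy.ne' hx.ne'] at h1
  have h2 : x * (Real.log y - Real.log x) ≤ x * (y / x - 1) := mul_le_mul_of_nonneg_left h1 hx.le
  have h3 : x * (y / x - 1) = y - x := by field_simp
  rw [h3] at h2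
  linarith

/-- the summand -/
noncomputable def FK (K : ℕ) (n : ℕ) : ℝ := ∑ k ∈ Icc 1 K, Ph (k * del n)

lemma FK_nonneg (K n : ℕ) : 0 ≤ FK K n := Finset.sum_nonneg fun _ _ => Ph_nonneg _

/-- comparison at one gap -/
lemma cmp {V μ η : ℝ} (hV : 10 ≤ V) (hμ : 0 < μ) (hη : 0 ≤ η)
    (hL : Real.log (2 * V) + 1 ≤ (1 + η) * (μ * Real.log V)) {i : ℕ} (hi : i ∈ Bx V)
    (hi1 : i + 1 ∈ Bx V) (k : ℕ) :
    Ph (k * (μ * Real.log V / (2 * Real.pi)) * (ord (i + 1) - ord i)) ≤
      Ph (k * del i) + 1.445 * η := by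
  have hpi := Real.pi_pos
  rw [mem_Bx] at hi hi1
  have hlog : 0 < Real.log V := Real.log_pos (by linarith)
  have hmono : ord i ≤ ord (i + 1) := SG.ord_mono hi.1 (by omega)
  set g := ord (i + 1) - ord i with hg
  have hg0 : 0 ≤ g := by linarith
  set z := (k : ℝ) * (μ * Real.log V / (2 * Real.pi)) * g with hz
  have hz0 : 0 ≤ z := by positivity
  rcases le_or_gt 1 z with h1 | h1
  · rw [Ph_zero_of h1]
    have := Ph_nonneg (k * del i)
    positivity
  · have h2 : del i ≤ g * (Real.log (2 * V) + 1) / (2 * Real.pi) := by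
      unfold H177.Lat.del
      apply div_le_div_of_nonneg_right _ (by positivity)
      have ha : 0 < ord i := by linarith
      refine (xlog_high ha hmono).trans ?_
      apply mul_le_mul_of_nonneg_left _ hg0
      have : Real.log (ord (i + 1)) ≤ Real.log (2 * V) :=
        Real.log_le_log (by linarith) (by linarith)
      linarith
    have h3 : (k : ℝ) * del i ≤ z + η := by
      have h4 : del i ≤ g * ((1 + η) * (μ * Real.log V)) / (2 * Real.pi) := by
        refine h2.trans ?_
        apply div_le_div_of_nonneg_right _ (by positivity)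
        exact mul_le_mul_of_nonneg_left hL hg0
      have h5 : (k : ℝ) * del i ≤ k * (g * ((1 + η) * (μ * Real.log V)) / (2 * Real.pi)) :=
        mul_le_mul_of_nonneg_left h4 (Nat.cast_nonneg _)
      have h6 : (k : ℝ) * (g * ((1 + η) * (μ * Real.log V)) / (2 * Real.pi)) = (1 + η) * z := by
        rw [hz]
        ring
      rw [h6] at h5
      nlinarith
    have h7 : Ph z ≤ Ph (k * del i - η) := Ph_anti (by linarith)
    have h8 := Ph_lip (k * del i - η) (k * del i)
    rw [show (k : ℝ) * del i - η - k * del i = -η by ring, abs_neg, abs_of_nonneg hη] at h8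
    exact h7.trans h8

/-- **the block inequality** -/
theorem blockK (hRH : RiemannHypothesis) : ∃ C : ℝ, 0 < C ∧ ∀ K : ℕ, 1 ≤ K → ∀ η : ℝ, 0 < η →
    ∃ T1 : ℝ, 10 ≤ T1 ∧ ∀ T : ℝ, T1 ≤ T →
      (c0 - C / K - η) * (T * Real.log T / (2 * Real.pi)) ≤ ∑ n ∈ Jx T, FK K n := by
  classical
  obtain ⟨C, V1, hC, hV1, hfar⟩ := far_pairs hRH
  refine ⟨1.269 * C, by positivity, fun K hK η hη => ?_⟩
  have hK0 : (0 : ℝ) < K := by exact_mod_cast hK
  set g := gk 1 (-1) 0 with hg
  set J : ℝ := ∫ t in (0 : ℝ)..1, t * g t with hJ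
  have hmom : g 0 + 2 * J = 1 + 2 * c0 := mom_eq
  -- parameters
  set ε' : ℝ := min 1 (η / 8) with hε'
  have hε'0 : 0 < ε' := lt_min one_pos (by positivity)
  have hε'1 : ε' ≤ 1 := min_le_left _ _
  have hε'2 : ε' ≤ η / 8 := min_le_right _ _
  set η1 : ℝ := η / (16 * K) with hη1
  have hη10 : 0 < η1 := by positivity
  have hη1K : K * η1 = η / 16 := by rw [hη1]; field_simp
  have hc : ContinuousAt (fun μ : ℝ => g 0 / μ + 2 * μ * J) 1 := by
    have : ContinuousAt (fun μ : ℝ => g 0 / μ) 1 :=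
      continuousAt_const.div continuousAt_id one_ne_zero
    exact this.add (by fun_prop)
  have hev : ∀ᶠ μ in 𝓝[<] (1 : ℝ), 1 + 2 * c0 - ε' < g 0 / μ + 2 * μ * J := by
    apply nhdsWithin_le_nhds
    apply continuousAt_const.eventually_lt hc
    simp only [div_one, mul_one]
    linarith
  have hev2 : ∀ᶠ μ in 𝓝[<] (1 : ℝ), max (1 / 2) (1 / (1 + η1)) < μ := by
    apply nhdsWithin_le_nhds (lt_mem_nhds _)
    apply max_lt (by norm_num)
    rw [div_lt_one (by positivity)]
    linarith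
  have hlt : ∀ᶠ s in 𝓝[<] (1 : ℝ), s < 1 := self_mem_nhdsWithin
  obtain ⟨μ, ⟨hμ2, hμ3⟩, hμ4⟩ := ((hev.and hev2).and hlt).exists
  have hμh : 1 / 2 < μ := (le_max_left _ _).trans_lt hμ3
  have hμr : 1 < (1 + η1) * μ := by
    have := (le_max_right (1 / 2) (1 / (1 + η1))).trans_lt hμ3
    rw [div_lt_iff₀ (by positivity)] at this
    linarith
  have hμ0 : 0 < μ := by linarith
  obtain ⟨V2, hV2, hpair⟩ := blk_pair hRH (cd_gk 1 (-1) 0) (gk_one 1 (-1) 0) hμ0 hμ4 hε'0
  have hevL : ∀ᶠ V : ℝ in atTop, (Real.log 2 + 1) / ((1 + η1) * μ - 1) ≤ Real.log V :=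
    Real.tendsto_log_atTop.eventually_ge_atTop _
  obtain ⟨V3, hV3⟩ := hevL.exists_forall_of_atTop
  refine ⟨max (max V1 V2) (max V3 (4 + 8 / η)), le_max_of_le_left (le_max_of_le_left hV1),
    fun V hV => ?_⟩
  have hVV1 : V1 ≤ V := ((le_max_left _ _).trans (le_max_left _ _)).trans hV
  have hVV2 : V2 ≤ V := ((le_max_right _ _).trans (le_max_left _ _)).trans hV
  have hVV3 : V3 ≤ V := ((le_max_left _ _).trans (le_max_right _ _)).trans hV
  have hVV4 : 4 + 8 / η ≤ V := ((le_max_right _ _).trans (le_max_right _ _)).trans hV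
  have hV10 : 10 ≤ V := hV1.trans hVV1
  have hV0 : 0 < V := by linarith
  have hpi := Real.pi_pos
  have hL0 : 0 < Real.log V := Real.log_pos (by linarith)
  have hXV0 : 0 < XV V := by
    unfold XV
    have : 0 < V - 2 := by linarith
    positivity
  obtain ⟨b1, b2⟩ := hpair V hVV2
  set lam : ℝ := μ * Real.log V / (2 * Real.pi) with hlam
  have hlam0 : 0 < lam := by positivity
  have hfar' := hfar V hVV1 lam (by
    rw [hlam, div_le_div_iff₀ (by positivity) (by positivity)]
    have : Real.log V * 1 ≤ Real.log V * (2 * μ) := mul_le_mul_of_nonneg_left (by linarith) hL0.le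
    nlinarith) K hK
  have hLL : Real.log (2 * V) + 1 ≤ (1 + η1) * (μ * Real.log V) := by
    have h1 := hV3 V hVV3
    rw [div_le_iff₀ (by linarith)] at h1
    rw [Real.log_mul (by norm_num) hV0.ne']
    nlinarith
  set w : ℕ → ℕ → ℝ := fun n m => Real.exp (-(ord n - ord m) ^ 2 / 4) *
    ct g (lam * (ord n - ord m)) with hw
  have hS : ∀ a b c : ℕ, a ≤ b → b ≤ c → a ∈ Bx V → c ∈ Bx V → b ∈ Bx V := by
    intro a b c hab hbc ha hc
    rw [mem_Bx] at ha hc ⊢
    exact ⟨by omega, ha.2.1.trans_le (SG.ord_mono ha.1 hab),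
      (SG.ord_mono (by omega) hbc).trans hc.2.2⟩
  have hpu := pair_upper (Bx V) hS ord (fun n hn m _ hnm => SG.ord_mono (mem_Bx.1 hn).1 hnm)
    hlam0 w (by
      intro n m
      simp only [hw]
      rw [show lam * (ord n - ord m) = -(lam * (ord m - ord n)) by ring, ct_even]
      congr 2
      ring) (by
      intro n
      simp only [hw]
      rw [sub_self, mul_zero, hg, ct_gk_zero]
      simp) (by
      intro n hn m hm hnm
      simp only [hw]
      rw [show lam * (ord n - ord m) = -(lam * (ord m - ord n)) by ring, ct_even]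
      have hd : 0 ≤ ord m - ord n := sub_nonneg.2 (SG.ord_mono (mem_Bx.1 hn).1 hnm.le)
      have h1 : ct g (lam * (ord m - ord n)) ≤ Ph (lam * (ord m - ord n)) :=
        ct_le_Ph (by positivity)
      have h2 : Real.exp (-(ord n - ord m) ^ 2 / 4) ≤ 1 := by
        rw [Real.exp_le_one_iff]
        have := sq_nonneg (ord n - ord m)
        linarith
      calc Real.exp (-(ord n - ord m) ^ 2 / 4) * ct g (lam * (ord m - ord n)) ≤
          Real.exp (-(ord n - ord m) ^ 2 / 4) * Ph (lam * (ord m - ord n)) :=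
            mul_le_mul_of_nonneg_left h1 (Real.exp_pos _).le
        _ ≤ 1 * Ph (lam * (ord m - ord n)) := mul_le_mul_of_nonneg_right h2 (Ph_nonneg _)
        _ = _ := one_mul _) K
  -- the lower bound of the pair sum
  have hlow : XV V * (1 + 2 * c0 - 2 * ε') ≤ ∑ n ∈ Bx V, ∑ m ∈ Bx V, w n m := by
    have h1 := (abs_le.1 b2).1
    have h2 : XV V * (1 + 2 * c0 - ε') ≤ XV V * (g 0 / μ + 2 * μ * J) :=
      mul_le_mul_of_nonneg_left hμ2.le hXV0.le
    have h3 : ∑ n ∈ Bx V, ∑ m ∈ Bx V, w n m = ∑ n ∈ Bx V, ∑ m ∈ Bx V,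
        Real.exp (-(ord n - ord m) ^ 2 / 4) * ct g (lam * (ord n - ord m)) := rfl
    rw [h3]
    nlinarith
  have hcard := (abs_le.1 b1).2
  have hcard2 : ((Bx V).card : ℝ) ≤ 2 * XV V := by
    have : ε' * XV V ≤ 1 * XV V := mul_le_mul_of_nonneg_right hε'1 hXV0.le
    linarith
  -- comparison with the normalised gaps
  set S' := (Bx V).filter (fun n => n + 1 ∈ Bx V) with hS'
  have hcmp : ∑ k ∈ Icc 1 K, ∑ i ∈ S', Ph (k * lam * (ord (i + 1) - ord i)) ≤
      ∑ i ∈ Jx V, FK K i + η / 2 * XV V := by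
    have h1 : ∀ k ∈ Icc 1 K, ∑ i ∈ S', Ph (k * lam * (ord (i + 1) - ord i)) ≤
        ∑ i ∈ S', Ph (k * del i) + 2 * XV V * (1.445 * η1) := by
      intro k _
      have h2 : ∑ i ∈ S', Ph (k * lam * (ord (i + 1) - ord i)) ≤
          ∑ i ∈ S', (Ph (k * del i) + 1.445 * η1) := by
        apply Finset.sum_le_sum
        intro i hi
        rw [hS', mem_filter] at hi
        exact cmp hV10 hμ0 hη10.le hLL hi.1 hi.2 k
      refine h2.trans ?_
      rw [Finset.sum_add_distrib, Finset.sum_const, nsmul_eq_mul]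
      have h3 : (S'.card : ℝ) ≤ 2 * XV V := by
        refine le_trans ?_ hcard2
        exact_mod_cast card_le_card (filter_subset _ _)
      have h4 := mul_le_mul_of_nonneg_right h3 (show 0 ≤ 1.445 * η1 by positivity)
      linarith
    refine (Finset.sum_le_sum h1).trans ?_
    rw [Finset.sum_add_distrib, Finset.sum_const, Nat.card_Icc, Nat.add_sub_cancel, nsmul_eq_mul]
    have h5 : ∑ k ∈ Icc 1 K, ∑ i ∈ S', Ph (k * del i) ≤ ∑ i ∈ Jx V, FK K i := by
      rw [Finset.sum_comm]
      apply Finset.sum_le_sum_of_subset_of_nonneg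
      · intro i hi
        rw [hS', mem_filter, mem_Bx] at hi
        rw [mem_Jx]
        exact ⟨hi.1.1, by linarith [hi.1.2.1], by linarith [hi.1.2.2]⟩
      · intro i _ _
        exact FK_nonneg K i
    have h6 : (K : ℝ) * (2 * XV V * (1.445 * η1)) ≤ η / 2 * XV V := by
      have : (K : ℝ) * (2 * XV V * (1.445 * η1)) = 2.89 * (K * η1) * XV V := by ring
      rw [this, hη1K]
      apply mul_le_mul_of_nonneg_right _ hXV0.le
      linarith
    linarith
  set F := ∑ i ∈ Jx V, FK K i with hF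
  have hF0 : 0 ≤ F := Finset.sum_nonneg fun i _ => FK_nonneg K i
  have hmain : XV V * (c0 - 1.269 * C / K - 3 / 4 * η) ≤ F := by
    have h1 : XV V * (1 + 2 * c0 - 2 * ε') ≤ (1 + ε') * XV V + 2 * (F + η / 2 * XV V) +
        2.538 * (C / K * XV V) := by
      have h2 := hlow.trans hpu
      have h3 : ((Bx V).card : ℝ) ≤ (1 + ε') * XV V := by linarith
      linarith
    have h4 : ε' * XV V ≤ η / 8 * XV V := mul_le_mul_of_nonneg_right hε'2 hXV0.le
    have h5 : 1.269 * C / K = 1.269 * (C / K) := by ring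
    rw [h5]
    nlinarith
  -- conclusion
  set X := V * Real.log V / (2 * Real.pi) with hX
  have hX0 : 0 < X := by positivity
  have hXV : XV V = (1 - 2 / V) * X := by
    unfold XV
    rw [hX]
    field_simp
  rcases le_or_gt (c0 - 1.269 * C / K - η) 0 with hneg | hpos
  · exact (mul_nonpos_of_nonpos_of_nonneg hneg hX0.le).trans hF0
  · refine le_trans ?_ hmain
    rw [hXV]
    set A := c0 - 1.269 * C / K - 3 / 4 * η with hA
    have hA0 : 0 < A := by rw [hA]; linarith
    have hA1 : A ≤ 1 := by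
      have := c0_lt
      have h2 : 0 < 1.269 * C / K := by positivity
      rw [hA]
      linarith
    have hV8 : 2 / V ≤ η / 4 := by
      rw [div_le_div_iff₀ hV0 (by norm_num)]
      have : 8 / η ≤ V := by linarith
      rw [div_le_iff₀ hη] at this
      linarith
    have h1 : c0 - 1.269 * C / K - η ≤ (1 - 2 / V) * A := by
      have h2 : 2 / V * A ≤ η / 4 * 1 := mul_le_mul hV8 hA1 hA0.le (by positivity)
      have h3 : c0 - 1.269 * C / K - η = A - η / 4 := by rw [hA]; ring
      rw [h3]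
      linarith
    calc (c0 - 1.269 * C / K - η) * X ≤ (1 - 2 / V) * A * X := mul_le_mul_of_nonneg_right h1 hX0.le
      _ = _ := by ring

/-- **the inequality for the first `N` gaps** -/
theorem engine (hRH : RiemannHypothesis) (ε : ℝ) (hε : 0 < ε) : ∃ K : ℕ, 1 ≤ K ∧
    ∀ᶠ N : ℕ in atTop, (c0 - ε) * N ≤ ∑ n ∈ Icc 1 N, FK K n := by
  obtain ⟨C, hC, hb⟩ := blockK hRH
  obtain ⟨K, hK⟩ := exists_nat_gt (max 1 (C / (ε / 2)))
  have hK1 : (1 : ℝ) < K := (le_max_left _ _).trans_lt hK
  have hK2 : C / (ε / 2) < K := (le_max_right _ _).trans_lt hK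
  have hK1' : 1 ≤ K := by exact_mod_cast hK1.le
  refine ⟨K, hK1', ?_⟩
  have hK0 : (0 : ℝ) < K := by linarith
  have hCK : C / K ≤ ε / 2 := by
    rw [div_le_iff₀ hK0]
    rw [div_lt_iff₀ (by positivity)] at hK2
    linarith
  rcases le_or_gt (c0 - ε) 0 with hneg | hpos
  · refine Eventually.of_forall fun N => ?_
    exact (mul_nonpos_of_nonpos_of_nonneg hneg (Nat.cast_nonneg _)).trans
      (Finset.sum_nonneg fun n _ => FK_nonneg K n)
  have h := glob_lower hRH (F := FK K) (FK_nonneg K) (θ := c0 - C / K) (by linarith)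
    (fun η hη => hb K hK1' η hη) (ε / 2) (by positivity)
  filter_upwards [h] with N hN
  refine le_trans ?_ hN
  apply mul_le_mul_of_nonneg_right _ (Nat.cast_nonneg _)
  linarith

end Pool.Agent.E8helper28.GS
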