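import Pool.Agent.E8helper28.GS.Phi

/-! Combinatorial part: pair sums and gaps. -/

open Finset

namespace Pool.Agent.E8helper28.GS

/-- symmetric double sums -/
lemma double_eq (S : Finset ℕ) (w : ℕ → ℕ → ℝ) (hs : ∀ n m, w n m = w m n) :
    ∑ n ∈ S, ∑ m ∈ S, w n m = ∑ n ∈ S, w n n +
      2 * ∑ n ∈ S, ∑ m ∈ S.filter (fun m => n < m), w n m := by
  classical
  have h1 : ∀ n ∈ S, ∑ m ∈ S, w n m = w n n + ∑ m ∈ S.filter (fun m => n < m), w n m +
      ∑ m ∈ S.filter (fun m => m < n), w n m := by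
    intro n hn
    rw [← Finset.sum_filter_add_sum_filter_not S (fun m => n < m)]
    have e : S.filter (fun m => ¬ n < m) = insert n (S.filter (fun m => m < n)) := by
      ext m
      simp only [mem_filter, mem_insert, not_lt]
      constructor
      · rintro ⟨h1, h2⟩
        rcases h2.eq_or_lt with h | h
        · exact Or.inl h
        · exact Or.inr ⟨h1, h⟩
      · rintro (h | ⟨h1, h2⟩)
        · rw [h]; exact ⟨hn, le_rfl⟩
        · exact ⟨h1, h2.le⟩
    rw [e, Finset.sum_insert (by simp)]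
    ring
  rw [Finset.sum_congr rfl h1, Finset.sum_add_distrib, Finset.sum_add_distrib]
  have h2 : ∑ n ∈ S, ∑ m ∈ S.filter (fun m => m < n), w n m =
      ∑ n ∈ S, ∑ m ∈ S.filter (fun m => n < m), w n m := by
    simp_rw [Finset.sum_filter]
    rw [Finset.sum_comm]
    apply Finset.sum_congr rfl
    intro n _
    apply Finset.sum_congr rfl
    intro m _
    split_ifs
    · exact hs _ _
    · rfl
  rw [h2]
  ring

/-- convexity: a long gap -/
lemma jensen (γ : ℕ → ℝ) (lam : ℝ) (n k : ℕ) (hk : 1 ≤ k) :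
    Ph (lam * (γ (n + k) - γ n)) ≤
      (1 / (k : ℝ)) * ∑ j ∈ range k, Ph (k * lam * (γ (n + j + 1) - γ (n + j))) := by
  have hk0 : (0 : ℝ) < k := by exact_mod_cast hk
  have h := Ph_conv.map_sum_le (t := range k) (w := fun _ => 1 / (k : ℝ))
    (p := fun j => k * lam * (γ (n + j + 1) - γ (n + j))) (fun _ _ => by positivity)
    (by rw [sum_const, card_range, nsmul_eq_mul]; field_simp) (fun _ _ => Set.mem_univ _)
  simp only [smul_eq_mul] at h
  have e : ∑ j ∈ range k, 1 / (k : ℝ) * (k * lam * (γ (n + j + 1) - γ (n + j))) =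
      lam * (γ (n + k) - γ n) := by
    have ht := Finset.sum_range_sub (fun j => γ (n + j)) k
    simp only [add_zero] at ht
    have e2 : ∑ j ∈ range k, (γ (n + j + 1) - γ (n + j)) = γ (n + k) - γ n := ht
    rw [← e2, Finset.mul_sum]
    refine Finset.sum_congr rfl fun j _ => ?_
    field_simp
  rw [e] at h
  rw [Finset.mul_sum]
  exact h

/-- all pairs at distance `k` -/
lemma shift_sum (S : Finset ℕ) (hS : ∀ a b c : ℕ, a ≤ b → b ≤ c → a ∈ S → c ∈ S → b ∈ S)
    (γ : ℕ → ℝ) (lam : ℝ) (k : ℕ) (hk : 1 ≤ k) :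
    ∑ n ∈ S.filter (fun n => n + k ∈ S), Ph (lam * (γ (n + k) - γ n)) ≤
      ∑ i ∈ S.filter (fun n => n + 1 ∈ S), Ph (k * lam * (γ (i + 1) - γ i)) := by
  classical
  have hk0 : (0 : ℝ) < k := by exact_mod_cast hk
  refine (Finset.sum_le_sum fun n _ => jensen γ lam n k hk).trans ?_
  rw [← Finset.mul_sum, Finset.sum_comm]
  have h1 : ∀ j ∈ range k, ∑ n ∈ S.filter (fun n => n + k ∈ S),
      Ph (k * lam * (γ (n + j + 1) - γ (n + j))) ≤
      ∑ i ∈ S.filter (fun n => n + 1 ∈ S), Ph (k * lam * (γ (i + 1) - γ i)) := by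
    intro j hj
    rw [mem_range] at hj
    have e : ∑ n ∈ S.filter (fun n => n + k ∈ S), Ph (k * lam * (γ (n + j + 1) - γ (n + j))) =
        ∑ i ∈ (S.filter (fun n => n + k ∈ S)).image (fun n => n + j),
          Ph (k * lam * (γ (i + 1) - γ i)) := by
      rw [Finset.sum_image]
      intro a _ b _ h
      exact Nat.add_right_cancel h
    rw [e]
    apply Finset.sum_le_sum_of_subset_of_nonneg
    · intro i hi
      rw [mem_image] at hi
      obtain ⟨n, hn, rfl⟩ := hi
      rw [mem_filter] at hn ⊢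
      exact ⟨hS n (n + j) (n + k) (by omega) (by omega) hn.1 hn.2,
        hS n (n + j + 1) (n + k) (by omega) (by omega) hn.1 hn.2⟩
    · intro i _ _
      exact Ph_nonneg _
  have h2 := Finset.sum_le_sum h1
  rw [Finset.sum_const, card_range, nsmul_eq_mul] at h2
  calc 1 / (k : ℝ) * _ ≤ 1 / (k : ℝ) * (k * _) := mul_le_mul_of_nonneg_left h2 (by positivity)
    _ = _ := by field_simp

/-- the near pairs -/
lemma near_sum (S : Finset ℕ) (hS : ∀ a b c : ℕ, a ≤ b → b ≤ c → a ∈ S → c ∈ S → b ∈ S)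
    (γ : ℕ → ℝ) (lam : ℝ) (K : ℕ) :
    ∑ n ∈ S, ∑ m ∈ S.filter (fun m => n < m ∧ m ≤ n + K), Ph (lam * (γ m - γ n)) ≤
      ∑ k ∈ Icc 1 K, ∑ i ∈ S.filter (fun n => n + 1 ∈ S), Ph (k * lam * (γ (i + 1) - γ i)) := by
  classical
  have h1 : ∀ n ∈ S, ∑ m ∈ S.filter (fun m => n < m ∧ m ≤ n + K), Ph (lam * (γ m - γ n)) =
      ∑ k ∈ Icc 1 K, if n + k ∈ S then Ph (lam * (γ (n + k) - γ n)) else 0 := by
    intro n _
    rw [← Finset.sum_filter]
    apply Finset.sum_bij' (fun m _ => m - n) (fun k _ => n + k)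
    · intro m hm
      rw [mem_filter] at hm
      rw [mem_filter, mem_Icc]
      have : n + (m - n) = m := by omega
      rw [this]
      exact ⟨⟨by omega, by omega⟩, hm.1⟩
    · intro k hk
      rw [mem_filter, mem_Icc] at hk
      rw [mem_filter]
      exact ⟨hk.2, by omega, by omega⟩
    · intro m hm
      rw [mem_filter] at hm
      omega
    · intro k _
      omega
    · intro m hm
      rw [mem_filter] at hm
      have : n + (m - n) = m := by omega
      simp only [this]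
  rw [Finset.sum_congr rfl h1, Finset.sum_comm]
  apply Finset.sum_le_sum
  intro k hk
  rw [mem_Icc] at hk
  rw [← Finset.sum_filter]
  exact shift_sum S hS γ lam k hk.1

lemma Ph_le (x : ℝ) (hx : 0 ≤ x) : Ph x ≤ 1.269 := by
  refine (Ph_anti hx).trans ?_
  unfold Ph
  rw [max_eq_right (by norm_num), max_eq_right (by norm_num), max_eq_right (by norm_num)]
  norm_num

/-- upper bound for the pair sum -/
theorem pair_upper (S : Finset ℕ) (hS : ∀ a b c : ℕ, a ≤ b → b ≤ c → a ∈ S → c ∈ S → b ∈ S)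
    (γ : ℕ → ℝ) (hγ : ∀ n ∈ S, ∀ m ∈ S, n ≤ m → γ n ≤ γ m) {lam : ℝ} (hlam : 0 < lam)
    (w : ℕ → ℕ → ℝ) (hs : ∀ n m, w n m = w m n) (hw0 : ∀ n, w n n = 1)
    (hw : ∀ n ∈ S, ∀ m ∈ S, n < m → w n m ≤ Ph (lam * (γ m - γ n))) (K : ℕ) :
    ∑ n ∈ S, ∑ m ∈ S, w n m ≤ S.card +
      2 * ∑ k ∈ Icc 1 K, ∑ i ∈ S.filter (fun n => n + 1 ∈ S),
        Ph (k * lam * (γ (i + 1) - γ i)) +
      2.538 * ∑ n ∈ S, ((S.filter (fun m => n + K < m ∧ lam * (γ m - γ n) < 1)).card : ℝ) := by
  classical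
  rw [double_eq S w hs, Finset.sum_congr rfl (fun n _ => hw0 n), Finset.sum_const, nsmul_eq_mul,
    mul_one]
  have h1 : ∀ n ∈ S, ∑ m ∈ S.filter (fun m => n < m), w n m ≤
      ∑ m ∈ S.filter (fun m => n < m ∧ m ≤ n + K), Ph (lam * (γ m - γ n)) +
        1.269 * ((S.filter (fun m => n + K < m ∧ lam * (γ m - γ n) < 1)).card : ℝ) := by
    intro n hn
    rw [← Finset.sum_filter_add_sum_filter_not (S.filter (fun m => n < m)) (fun m => m ≤ n + K)]
    apply add_le_add
    · rw [Finset.filter_filter]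
      apply Finset.sum_le_sum
      intro m hm
      rw [mem_filter] at hm
      exact hw n hn m hm.1 hm.2.1
    · have e : (1.269 : ℝ) * ((S.filter (fun m => n + K < m ∧ lam * (γ m - γ n) < 1)).card : ℝ) =
          ∑ m ∈ S.filter (fun m => n + K < m ∧ lam * (γ m - γ n) < 1), (1.269 : ℝ) := by
        rw [Finset.sum_const, nsmul_eq_mul]
        ring
      rw [e, Finset.filter_filter, Finset.sum_filter, Finset.sum_filter]
      apply Finset.sum_le_sum
      intro m hm
      by_cases h2 : n < m ∧ ¬ m ≤ n + K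
      · rw [if_pos h2]
        have h3 : γ n ≤ γ m := hγ n hn m hm h2.1.le
        have h4 : 0 ≤ lam * (γ m - γ n) := mul_nonneg hlam.le (sub_nonneg.2 h3)
        by_cases h5 : lam * (γ m - γ n) < 1
        · rw [if_pos ⟨by omega, h5⟩]
          exact (hw n hn m hm h2.1).trans (Ph_le _ h4)
        · rw [if_neg (fun h => h5 h.2)]
          refine (hw n hn m hm h2.1).trans (le_of_eq ?_)
          exact Ph_zero_of (not_lt.1 h5)
      · rw [if_neg h2]
        split_ifs
        · norm_num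
        · exact le_rfl
  have h2 := Finset.sum_le_sum h1
  rw [Finset.sum_add_distrib, ← Finset.mul_sum] at h2
  have h3 := near_sum S hS γ lam K
  linarith

end Pool.Agent.E8helper28.GS
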