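import Pool.Agent.Y747.Avg
import Pool.Agent.Y747.CertM
import Pool.Agent.E8helper28.GS.Blk
import Pool.Agent.E8helper28.RM.Small

/-! Comparison with the GOE and the GSE. -/

open Finset Filter Topology MeasureTheory

namespace Pool.Agent.E8helper28.GS

open Pool.Agent.Y747 Pool.Agent.TH873.EW
open SG (ord NZ)
open H177.Lat (del xlog_low)
open Pool.Agent.E8helper28.RM (EG1 EG4 EG1_one EG4_one EG4_08 EG4_06 EG4_small)

/-- `N` times the average of `(t - δ_n)₊` -/
noncomputable def HH (N : ℕ) (t : ℝ) : ℝ := ∑ n ∈ Icc 1 N, max 0 (t - del n)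

lemma HH_nonneg (N : ℕ) (t : ℝ) : 0 ≤ HH N t := Finset.sum_nonneg fun _ _ => le_max_left _ _

lemma max_scale (k : ℕ) (hk : 1 ≤ k) (a d : ℝ) : max 0 (a - k * d) = k * max 0 (a / k - d) := by
  have hk0 : (0 : ℝ) < k := by exact_mod_cast hk
  rw [mul_max_of_nonneg _ _ hk0.le, mul_zero]
  congr 1
  field_simp

lemma Ph_k (k : ℕ) (hk : 1 ≤ k) (d : ℝ) : Ph (k * d) = k * (0.765 * max 0 (1 / k - d) +
    0.48 * max 0 (0.8 / k - d) + 0.2 * max 0 (0.6 / k - d)) := by
  unfold Ph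
  rw [max_scale k hk, max_scale k hk, max_scale k hk]
  ring

lemma sum_FK (K N : ℕ) : ∑ n ∈ Icc 1 N, FK K n = ∑ k ∈ Icc 1 K,
    (k : ℝ) * (0.765 * HH N (1 / k) + 0.48 * HH N (0.8 / k) + 0.2 * HH N (0.6 / k)) := by
  unfold FK
  rw [Finset.sum_comm]
  apply Finset.sum_congr rfl
  intro k hk
  rw [mem_Icc] at hk
  unfold HH
  rw [Finset.mul_sum, Finset.mul_sum, Finset.mul_sum, ← Finset.sum_add_distrib,
    ← Finset.sum_add_distrib, Finset.mul_sum]
  apply Finset.sum_congr rfl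
  intro n _
  exact Ph_k k hk.1 _

lemma c0_gt : 0.14133 < c0 := by
  unfold c0
  have h1 := Real.pi_gt_d6
  have h3 : 1 / (2 * Real.pi ^ 2) < 0.050661 := by
    rw [div_lt_iff₀ (by positivity)]
    nlinarith
  linarith

/-- sums of inverse fifth powers -/
lemma fifth (K : ℕ) : ∑ k ∈ Icc 2 K, 1 / (k : ℝ) ^ 5 ≤ 0.03846 := by
  have key : ∀ j : ℕ, ∑ k ∈ Icc 2 (j + 3), 1 / (k : ℝ) ^ 5 ≤
      1 / 32 + 1 / 243 + 1 / 324 - 1 / (4 * ((j : ℝ) + 3) ^ 4) := by
    intro j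
    induction j with
    | zero =>
      have : Icc 2 (0 + 3) = ({2, 3} : Finset ℕ) := by decide
      rw [this]
      norm_num
    | succ j ih =>
      rw [show j + 1 + 3 = (j + 3) + 1 by ring, Finset.sum_Icc_succ_top (by omega)]
      have hx : (0 : ℝ) < (j : ℝ) + 3 := by positivity
      obtain ⟨x, hxd⟩ : ∃ x : ℝ, x = (j : ℝ) + 3 := ⟨_, rfl⟩
      have e1 : (((j + 3) + 1 : ℕ) : ℝ) = x + 1 := by push_cast; rw [hxd]
      have e2 : (((j + 1 : ℕ) : ℝ) + 3) = x + 1 := by push_cast; rw [hxd]; ring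
      rw [e1, e2]
      rw [← hxd] at ih hx
      have h : 1 / (x + 1) ^ 5 ≤ 1 / (4 * x ^ 4) - 1 / (4 * (x + 1) ^ 4) := by
        rw [div_sub_div _ _ (by positivity) (by positivity), div_le_div_iff₀ (by positivity)
          (by positivity)]
        have e : (1 * (4 * (x + 1) ^ 4) - 4 * x ^ 4 * 1) * (x + 1) ^ 5 -
            1 * (4 * x ^ 4 * (4 * (x + 1) ^ 4)) =
            (x + 1) ^ 4 * (40 * x ^ 3 + 40 * x ^ 2 + 20 * x + 4) := by ring
        have : 0 ≤ (x + 1) ^ 4 * (40 * x ^ 3 + 40 * x ^ 2 + 20 * x + 4) := by positivity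
        linarith
      linarith
  have hmono : ∑ k ∈ Icc 2 K, 1 / (k : ℝ) ^ 5 ≤ ∑ k ∈ Icc 2 (K + 3), 1 / (k : ℝ) ^ 5 := by
    apply Finset.sum_le_sum_of_subset_of_nonneg
    · exact Finset.Icc_subset_Icc le_rfl (by omega)
    · intro k _ _
      positivity
  have h := key K
  have h2 : 0 < 1 / (4 * ((K : ℝ) + 3) ^ 4) := by positivity
  have h3 : (1 / 32 + 1 / 243 + 1 / 324 : ℝ) ≤ 0.03846 := by norm_num
  linarith

/-- the same functional for the GSE -/
lemma gse_sum (K : ℕ) : ∑ k ∈ Icc 1 K, (k : ℝ) * (0.765 * (EG4 (1 / k) - 1 + 1 / k) +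
    0.48 * (EG4 (0.8 / k) - 1 + 0.8 / k) + 0.2 * (EG4 (0.6 / k) - 1 + 0.6 / k)) ≤ 0.1383 := by
  rcases Nat.eq_zero_or_pos K with h0 | h0
  · subst h0
    simp
    norm_num
  have hterm : ∀ k ∈ Icc 2 K, (k : ℝ) * (0.765 * (EG4 (1 / k) - 1 + 1 / k) +
    0.48 * (EG4 (0.8 / k) - 1 + 0.8 / k) + 0.2 * (EG4 (0.6 / k) - 1 + 0.6 / k)) ≤
      0.3475 * (1 / (k : ℝ) ^ 5) := by
    intro k hk
    rw [mem_Icc] at hk
    have hk2 : (2 : ℝ) ≤ k := by exact_mod_cast hk.1
    have hk0 : (0 : ℝ) < k := by linarith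
    have hb : ∀ a : ℝ, 0 ≤ a → a ≤ 1 → EG4 (a / k) - 1 + a / k ≤ 0.386 * (a / k) ^ 6 := by
      intro a ha0 ha1
      apply EG4_small (by positivity)
      rw [div_le_iff₀ hk0]
      linarith
    have b1 := hb 1 zero_le_one le_rfl
    have b2 := hb 0.8 (by norm_num) (by norm_num)
    have b3 := hb 0.6 (by norm_num) (by norm_num)
    have e : (k : ℝ) * (0.765 * (0.386 * (1 / k) ^ 6) + 0.48 * (0.386 * (0.8 / k) ^ 6) +
        0.2 * (0.386 * (0.6 / k) ^ 6)) =
        (0.386 * (0.765 + 0.48 * 0.8 ^ 6 + 0.2 * 0.6 ^ 6)) * (1 / (k : ℝ) ^ 5) := by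
      field_simp
    have h1 : (k : ℝ) * (0.765 * (EG4 (1 / k) - 1 + 1 / k) +
        0.48 * (EG4 (0.8 / k) - 1 + 0.8 / k) + 0.2 * (EG4 (0.6 / k) - 1 + 0.6 / k)) ≤
        (k : ℝ) * (0.765 * (0.386 * (1 / k) ^ 6) + 0.48 * (0.386 * (0.8 / k) ^ 6) +
        0.2 * (0.386 * (0.6 / k) ^ 6)) := by
      apply mul_le_mul_of_nonneg_left _ hk0.le
      linarith
    rw [e] at h1
    refine h1.trans ?_
    apply mul_le_mul_of_nonneg_right _ (by positivity)
    norm_num
  have hsplit : Icc 1 K = insert 1 (Icc 2 K) := by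
    ext k
    simp only [mem_Icc, mem_insert]
    omega
  rw [hsplit, Finset.sum_insert (by simp)]
  have h1 := Finset.sum_le_sum hterm
  rw [← Finset.mul_sum] at h1
  have h2 := fifth K
  have h3 := EG4_one
  have h4 := EG4_08
  have h5 := EG4_06
  have e1 : (4 / 5 : ℝ) = 0.8 := by norm_num
  have e2 : (3 / 5 : ℝ) = 0.6 := by norm_num
  rw [e1] at h4
  rw [e2] at h5
  simp only [Nat.cast_one, div_one]
  norm_num at h1 h2 h3 h4 h5 ⊢
  linarith

/-- **more small gaps than the GSE** -/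
theorem gse_side (hRH : RiemannHypothesis) : ∃ c : ℝ, 0 < c ∧ ∀ᶠ N : ℕ in atTop,
    ∃ t : ℝ, 0 < t ∧ t ≤ 1 ∧ (EG4 t - 1 + t + c) * N ≤ HH N t := by
  obtain ⟨K, hK, hev⟩ := engine hRH 0.001 (by norm_num)
  have hK0 : (0 : ℝ) < K := by exact_mod_cast hK
  refine ⟨0.001 / (1.445 * K ^ 2), by positivity, ?_⟩
  set c : ℝ := 0.001 / (1.445 * K ^ 2) with hc
  have hc0 : 0 < c := by positivity
  filter_upwards [hev, eventually_gt_atTop 0] with N h1 hN
  have hN0 : (0 : ℝ) < N := by exact_mod_cast hN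
  by_contra hcon
  push Not at hcon
  rw [sum_FK] at h1
  have h2 : ∀ k ∈ Icc 1 K, (k : ℝ) * (0.765 * HH N (1 / k) + 0.48 * HH N (0.8 / k) +
      0.2 * HH N (0.6 / k)) ≤ ((k : ℝ) * (0.765 * (EG4 (1 / k) - 1 + 1 / k) +
      0.48 * (EG4 (0.8 / k) - 1 + 0.8 / k) + 0.2 * (EG4 (0.6 / k) - 1 + 0.6 / k)) +
        1.445 * K * c) * N := by
    intro k hk
    rw [mem_Icc] at hk
    have hk1 : (1 : ℝ) ≤ k := by exact_mod_cast hk.1
    have hkK : (k : ℝ) ≤ K := by exact_mod_cast hk.2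
    have hk0 : (0 : ℝ) < k := by linarith
    have hb : ∀ a : ℝ, 0 < a → a ≤ 1 → HH N (a / k) ≤ (EG4 (a / k) - 1 + a / k + c) * N := by
      intro a ha0 ha1
      apply (hcon (a / k) (by positivity) _).le
      rw [div_le_one hk0]
      linarith
    have b1 := hb 1 one_pos le_rfl
    have b2 := hb 0.8 (by norm_num) (by norm_num)
    have b3 := hb 0.6 (by norm_num) (by norm_num)
    have h3 : (k : ℝ) * (0.765 * HH N (1 / k) + 0.48 * HH N (0.8 / k) + 0.2 * HH N (0.6 / k)) ≤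
        (k : ℝ) * (0.765 * ((EG4 (1 / k) - 1 + 1 / k + c) * N) +
          0.48 * ((EG4 (0.8 / k) - 1 + 0.8 / k + c) * N) +
          0.2 * ((EG4 (0.6 / k) - 1 + 0.6 / k + c) * N)) := by
      apply mul_le_mul_of_nonneg_left _ hk0.le
      linarith
    refine h3.trans ?_
    have h4 : (k : ℝ) * (1.445 * (c * N)) ≤ K * (1.445 * (c * N)) :=
      mul_le_mul_of_nonneg_right hkK (by positivity)
    have e : (k : ℝ) * (0.765 * ((EG4 (1 / k) - 1 + 1 / k + c) * N) +
          0.48 * ((EG4 (0.8 / k) - 1 + 0.8 / k + c) * N) +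
          0.2 * ((EG4 (0.6 / k) - 1 + 0.6 / k + c) * N)) =
        (k : ℝ) * (0.765 * (EG4 (1 / k) - 1 + 1 / k) +
      0.48 * (EG4 (0.8 / k) - 1 + 0.8 / k) + 0.2 * (EG4 (0.6 / k) - 1 + 0.6 / k)) * N +
        (k : ℝ) * (1.445 * (c * N)) := by ring
    rw [e]
    linarith
  have h3 := Finset.sum_le_sum h2
  rw [← Finset.sum_mul, Finset.sum_add_distrib, Finset.sum_const, Nat.card_Icc,
    Nat.add_sub_cancel, nsmul_eq_mul] at h3
  have h4 : (K : ℝ) * (1.445 * K * c) = 0.001 := by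
    rw [hc]
    field_simp
  rw [h4] at h3
  have h5 := gse_sum K
  have h6 := h1.trans h3
  have h7 := le_of_mul_le_mul_right h6 hN0
  have h8 := c0_gt
  norm_num at h5 h7 h8
  linarith

/-- **fewer small gaps than the GOE** -/
theorem goe_side (hRH : RiemannHypothesis) : ∀ᶠ N : ℕ in atTop, HH N 1 ≤ 0.2045 * N := by
  have h := avg hRH (cd_gk 1 (-961 / 1000) (2311 / 10000))
    (gk_one 1 (-961 / 1000) (2311 / 10000)) (ct_gk_nonneg np_M)
    (lam := 0) le_rfl (φ := fun x => 2 * max 0 (1 - x) + 1) (fun x hx => by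
      rw [ct_gk_zero]
      have h1 := cert_M x hx
      rcases le_total x 1 with h | h
      · rw [abs_of_nonpos (by linarith)] at h1
        rw [max_eq_right (by linarith)]
        linarith
      · have := ct_gk_nonneg np_M x
        rw [max_eq_left (by linarith)]
        linarith) (1 / 100000) (by norm_num)
  rw [mom_gk] at h
  filter_upwards [h] with N hN
  rw [Finset.sum_add_distrib, ← Finset.mul_sum, Finset.sum_const, Nat.card_Icc,
    Nat.add_sub_cancel, nsmul_eq_mul, mul_one] at hN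
  have h1 := Real.pi_gt_d6
  have h2 := Real.pi_lt_d6
  have h3 : (0.02533 : ℝ) < 1 / (4 * Real.pi ^ 2) := by
    rw [lt_div_iff₀ (by positivity)]
    nlinarith
  have e : Vf 1 (-961 / 1000) (2311 / 10000) =
      (4 / 3 + 2701 / 20000 : ℝ) - (23481 / 10000) * (1 / (4 * Real.pi ^ 2)) := by
    unfold Vf
    ring
  have h4 : Vf 1 (-961 / 1000) (2311 / 10000) + 1 / 100000 ≤ 1.409 := by
    rw [e]
    linarith
  have hN0 : (0 : ℝ) ≤ N := Nat.cast_nonneg N
  have h5 := mul_le_mul_of_nonneg_right h4 hN0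
  have h6 : HH N 1 ≤ ∑ n ∈ Icc 1 N, max 0 (1 - dl n) := by
    unfold HH
    apply Finset.sum_le_sum
    intro n hn
    rw [mem_Icc] at hn
    have hp : 0 < ord n := SG.ord_pos hn.1
    have hm : ord n ≤ ord (n + 1) := SG.ord_mono hn.1 (by omega)
    have h7 : dl n ≤ del n := by
      unfold dl H177.Lat.del
      have hpi := Real.pi_pos
      have h8 := xlog_low hp hm
      have h9 : Real.log (ord n / (2 * Real.pi)) ≤ Real.log (ord n) := by
        apply Real.log_le_log (by positivity)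
        apply div_le_self hp.le
        have := Real.pi_gt_three
        linarith
      rw [div_mul_eq_mul_div]
      apply div_le_div_of_nonneg_right _ (by positivity)
      refine le_trans ?_ h8
      apply mul_le_mul_of_nonneg_left _ (by linarith)
      linarith
    exact max_le_max le_rfl (by linarith)
  linarith

end Pool.Agent.E8helper28.GS
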