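import Pool.Agent.E8helper28.GS.Fin

/-! Limits of the empirical distribution functions of the gaps. -/

open Finset Filter Topology MeasureTheory

namespace Pool.Agent.E8helper28.GS

open Pool.Agent.Y747 Pool.Agent.TH873.EW
open SG (ord NZ)
open H177.Lat (del xlog_low)
open Pool.Agent.E8helper28.RM (EG1 EG4 EG1_one)

/-- proportion of gaps at most `x` -/
noncomputable def FF (N : ℕ) (x : ℝ) : ℝ :=
  (((Icc 1 N).filter (fun n => del n ≤ x)).card : ℝ) / N

/-- proportion of gaps in `(a, b]` -/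
noncomputable def PP (N : ℕ) (a b : ℝ) : ℝ :=
  (((Icc 1 N).filter (fun n => a < del n ∧ del n ≤ b)).card : ℝ) / N

lemma del_nonneg : ∃ n0 : ℕ, 1 ≤ n0 ∧ ∀ n : ℕ, n0 ≤ n → 0 ≤ del n := by
  obtain ⟨n0, h⟩ := (SG.ord_tendsto.eventually_ge_atTop 1).exists_forall_of_atTop
  refine ⟨max 1 n0, le_max_left _ _, fun n hn => ?_⟩
  have h1 := h n ((le_max_right _ _).trans hn)
  have h2 : 1 ≤ n := (le_max_left _ _).trans hn
  have hm : ord n ≤ ord (n + 1) := SG.ord_mono h2 (by omega)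
  unfold H177.Lat.del
  apply div_nonneg _ (by positivity)
  have h3 := xlog_low (by linarith : 0 < ord n) hm
  have h4 : 0 ≤ Real.log (ord n) := Real.log_nonneg h1
  have h5 : 0 ≤ (ord (n + 1) - ord n) * (Real.log (ord n) + 1) :=
    mul_nonneg (by linarith) (by linarith)
  linarith

/-- indicator of `δ ≤ x` -/
noncomputable def ind (d x : ℝ) : ℝ := if d ≤ x then 1 else 0

lemma ind_mem (d x : ℝ) : 0 ≤ ind d x ∧ ind d x ≤ 1 := by
  unfold ind
  split_ifs <;> norm_num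

lemma ind_mono (d : ℝ) : Monotone (ind d) := by
  intro x y h
  unfold ind
  split_ifs with h1 h2
  · exact le_rfl
  · exact absurd (h1.trans h) h2
  · norm_num
  · exact le_rfl

lemma ind_int (d t : ℝ) (ht : 0 ≤ t) (hd : 0 ≤ d) :
    ∫ x in (0 : ℝ)..t, ind d x = max 0 (t - d) := by
  rw [intervalIntegral.integral_of_le ht]
  have e : ∀ x, ind d x = (Set.Ici d).indicator (fun _ => (1 : ℝ)) x := by
    intro x
    unfold ind
    by_cases h : d ≤ x
    · rw [if_pos h, Set.indicator_of_mem (by exact h)]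
    · rw [if_neg h, Set.indicator_of_notMem (by exact h)]
  simp_rw [e]
  rw [MeasureTheory.setIntegral_indicator measurableSet_Ici, MeasureTheory.setIntegral_const,
    smul_eq_mul, mul_one]
  have h2 : (Set.Ioc 0 t ∩ Set.Ici d : Set ℝ) =ᵐ[volume] (Set.Icc d t : Set ℝ) := by
    rcases eq_or_lt_of_le hd with h | h
    · subst h
      have : Set.Ioc 0 t ∩ Set.Ici (0 : ℝ) = Set.Ioc 0 t := by
        ext x
        simp only [Set.mem_inter_iff, Set.mem_Ioc, Set.mem_Ici]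
        constructor
        · exact fun h => h.1
        · exact fun h => ⟨h, h.1.le⟩
      rw [this]
      exact Ioc_ae_eq_Icc
    · have : Set.Ioc 0 t ∩ Set.Ici d = Set.Icc d t := by
        ext x
        simp only [Set.mem_inter_iff, Set.mem_Ioc, Set.mem_Ici, Set.mem_Icc]
        constructor
        · exact fun h => ⟨h.2, h.1.2⟩
        · exact fun h' => ⟨⟨h.trans_le h'.1, h'.2⟩, h'.1⟩
      exact Filter.EventuallyEq.of_eq this
  rw [measureReal_congr h2, Real.volume_real_Icc]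
  rw [max_comm]

lemma FF_eq (N : ℕ) (x : ℝ) : FF N x = (∑ n ∈ Icc 1 N, ind (del n) x) / N := by
  unfold FF ind
  rw [Finset.sum_ite]
  simp

lemma FF_mono (N : ℕ) : Monotone (FF N) := by
  intro x y h
  rw [FF_eq, FF_eq]
  apply div_le_div_of_nonneg_right _ (Nat.cast_nonneg _)
  exact Finset.sum_le_sum fun n _ => ind_mono _ h

lemma FF_mem (N : ℕ) (x : ℝ) : 0 ≤ FF N x ∧ FF N x ≤ 1 := by
  unfold FF
  constructor
  · positivity
  · apply div_le_one_of_le₀ _ (Nat.cast_nonneg _)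
    have h := card_filter_le (Icc 1 N) (fun n => del n ≤ x)
    rw [Nat.card_Icc, Nat.add_sub_cancel] at h
    exact_mod_cast h

/-- `H_N` is, up to `O(1/N)`, the integral of `F_N` -/
lemma H_int : ∃ C1 : ℝ, ∀ N : ℕ, 1 ≤ N → ∀ t : ℝ, 0 ≤ t → t ≤ 1 →
    |HH N t / N - ∫ x in (0 : ℝ)..t, FF N x| ≤ C1 / N := by
  obtain ⟨n0, hn0, hd⟩ := del_nonneg
  refine ⟨∑ n ∈ range n0, (1 + (1 + |del n|)), fun N hN t ht0 ht1 => ?_⟩
  have hN0 : (0 : ℝ) < N := by exact_mod_cast hN
  have hint : ∀ n, IntervalIntegrable (fun x => ind (del n) x) volume 0 t := fun n =>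
    (ind_mono _).intervalIntegrable
  have e1 : ∫ x in (0 : ℝ)..t, FF N x = (∑ n ∈ Icc 1 N, ∫ x in (0 : ℝ)..t, ind (del n) x) / N := by
    simp_rw [FF_eq]
    rw [intervalIntegral.integral_div, intervalIntegral.integral_finsetSum]
    intro n _
    exact hint n
  rw [e1, ← sub_div, abs_div, abs_of_pos hN0]
  apply div_le_div_of_nonneg_right _ hN0.le
  unfold HH
  rw [← Finset.sum_sub_distrib]
  refine (Finset.abs_sum_le_sum_abs _ _).trans ?_
  have h2 : ∀ n ∈ Icc 1 N, |max 0 (t - del n) - ∫ x in (0 : ℝ)..t, ind (del n) x| ≤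
      if n ∈ range n0 then (1 + (1 + |del n|)) else 0 := by
    intro n _
    split_ifs with h
    · refine (abs_sub _ _).trans ?_
      have h3 : |max 0 (t - del n)| ≤ 1 + |del n| := by
        rw [abs_of_nonneg (le_max_left _ _)]
        apply max_le (by positivity)
        have := neg_abs_le (del n)
        linarith
      have h4 : |∫ x in (0 : ℝ)..t, ind (del n) x| ≤ 1 := by
        have h5 := intervalIntegral.norm_integral_le_of_norm_le_const (a := 0) (b := t)
          (f := fun x => ind (del n) x) (C := 1) (fun x _ => by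
            rw [Real.norm_eq_abs, abs_of_nonneg (ind_mem _ _).1]
            exact (ind_mem _ _).2)
        rw [Real.norm_eq_abs, sub_zero, abs_of_nonneg ht0, one_mul] at h5
        linarith
      linarith
    · rw [Finset.mem_range, not_lt] at h
      rw [ind_int _ _ ht0 (hd n h), sub_self, abs_zero]
  refine (Finset.sum_le_sum h2).trans ?_
  rw [← Finset.sum_filter]
  apply Finset.sum_le_sum_of_subset_of_nonneg
  · intro n hn
    exact (Finset.mem_filter.1 hn).2
  · intro n _ _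
    positivity

/-- convergence of the integrals -/
lemma lim_of_ae {Fl : ℝ → ℝ} {Nj : ℕ → ℕ} (hNj : StrictMono Nj)
    (h : ∀ᵐ x : ℝ, x ∈ Set.Ioo (0 : ℝ) 1 → Tendsto (fun j => FF (Nj j) x) atTop (𝓝 (Fl x)))
    {t : ℝ} (ht0 : 0 < t) (ht1 : t ≤ 1) :
    Tendsto (fun j => HH (Nj j) t / (Nj j : ℝ)) atTop (𝓝 (∫ x in (0 : ℝ)..t, Fl x)) := by
  obtain ⟨C1, hC1⟩ := H_int
  have hlimN : Tendsto (fun j => (Nj j : ℝ)) atTop atTop :=
    tendsto_natCast_atTop_atTop.comp hNj.tendsto_atTop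
  have h1 : Tendsto (fun j => ∫ x in (0 : ℝ)..t, FF (Nj j) x) atTop
      (𝓝 (∫ x in (0 : ℝ)..t, Fl x)) := by
    apply intervalIntegral.tendsto_integral_filter_of_dominated_convergence (fun _ => (1 : ℝ))
    · exact Eventually.of_forall fun j => (FF_mono _).measurable.aestronglyMeasurable
    · refine Eventually.of_forall fun j => Eventually.of_forall fun x _ => ?_
      rw [Real.norm_eq_abs, abs_of_nonneg (FF_mem _ _).1]
      exact (FF_mem _ _).2
    · simp
    · have h3 : ∀ᵐ x : ℝ, x ≠ 1 := by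
        simp [ae_iff]
      filter_upwards [h, h3] with x hx hx1 hxt
      rw [Set.uIoc_of_le ht0.le] at hxt
      exact hx ⟨hxt.1, lt_of_le_of_ne (hxt.2.trans ht1) hx1⟩
  have h2 : Tendsto (fun j => HH (Nj j) t / (Nj j : ℝ) - ∫ x in (0 : ℝ)..t, FF (Nj j) x) atTop
      (𝓝 0) := by
    have h3 : Tendsto (fun j => C1 / (Nj j : ℝ)) atTop (𝓝 0) := hlimN.const_div_atTop C1
    apply squeeze_zero_norm' _ h3
    filter_upwards [hNj.tendsto_atTop.eventually_ge_atTop 1] with j hj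
    rw [Real.norm_eq_abs]
    exact hC1 (Nj j) hj t ht0.le ht1
  have h4 := h2.add h1
  simpa using h4

/-- the GSE is not a limit -/
lemma lim_gse (hRH : RiemannHypothesis) {Nj : ℕ → ℕ} (hNj : StrictMono Nj)
    (h : ∀ t : ℝ, 0 < t → t ≤ 1 →
      Tendsto (fun j => HH (Nj j) t / (Nj j : ℝ)) atTop (𝓝 (EG4 t - 1 + t))) : False := by
  obtain ⟨K, hK, hev⟩ := engine hRH 0.001 (by norm_num)
  have h1 : Tendsto (fun j => ∑ k ∈ Icc 1 K, (k : ℝ) * (0.765 * (HH (Nj j) (1 / k) / (Nj j : ℝ)) +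
      0.48 * (HH (Nj j) (0.8 / k) / (Nj j : ℝ)) + 0.2 * (HH (Nj j) (0.6 / k) / (Nj j : ℝ)))) atTop
      (𝓝 (∑ k ∈ Icc 1 K, (k : ℝ) * (0.765 * (EG4 (1 / k) - 1 + 1 / k) +
    0.48 * (EG4 (0.8 / k) - 1 + 0.8 / k) + 0.2 * (EG4 (0.6 / k) - 1 + 0.6 / k)))) := by
    apply tendsto_finsetSum
    intro k hk
    rw [mem_Icc] at hk
    have hk1 : (1 : ℝ) ≤ k := by exact_mod_cast hk.1
    have hk0 : (0 : ℝ) < k := by linarith
    have hb : ∀ a : ℝ, 0 < a → a ≤ 1 → Tendsto (fun j => HH (Nj j) (a / k) / (Nj j : ℝ)) atTop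
        (𝓝 (EG4 (a / k) - 1 + a / k)) := by
      intro a ha0 ha1
      apply h (a / k) (by positivity)
      rw [div_le_one hk0]
      linarith
    exact (((hb 1 one_pos le_rfl).const_mul _).add ((hb 0.8 (by norm_num) (by norm_num)).const_mul
      _)).add ((hb 0.6 (by norm_num) (by norm_num)).const_mul _) |>.const_mul _
  have h2 : ∀ᶠ j in atTop, c0 - 0.001 ≤ ∑ k ∈ Icc 1 K, (k : ℝ) *
      (0.765 * (HH (Nj j) (1 / k) / (Nj j : ℝ)) +
      0.48 * (HH (Nj j) (0.8 / k) / (Nj j : ℝ)) + 0.2 * (HH (Nj j) (0.6 / k) / (Nj j : ℝ))) := by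
    filter_upwards [hNj.tendsto_atTop.eventually hev,
      hNj.tendsto_atTop.eventually_gt_atTop 0] with j hj1 hj2
    have hN0 : (0 : ℝ) < (Nj j : ℝ) := by exact_mod_cast hj2
    rw [sum_FK, ← le_div_iff₀ hN0, Finset.sum_div] at hj1
    refine hj1.trans (le_of_eq ?_)
    apply Finset.sum_congr rfl
    intro k _
    ring
  have h3 := ge_of_tendsto h1 h2
  have h4 := gse_sum K
  have h5 := c0_gt
  norm_num at h4 h5 h3
  linarith

lemma lim_one (hRH : RiemannHypothesis) {Nj : ℕ → ℕ} (hNj : StrictMono Nj) {y : ℝ}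
    (h : Tendsto (fun j => HH (Nj j) 1 / (Nj j : ℝ)) atTop (𝓝 y)) : y ≤ 0.2045 := by
  refine le_of_tendsto h ?_
  filter_upwards [hNj.tendsto_atTop.eventually (goe_side hRH),
      hNj.tendsto_atTop.eventually_gt_atTop 0] with j hj1 hj2
  have hN0 : (0 : ℝ) < (Nj j : ℝ) := by exact_mod_cast hj2
  rwa [div_le_iff₀ hN0]

/-- the three laws -/
theorem no_ae (hRH : RiemannHypothesis) {E : ℝ → ℝ}
    (hE : E = EG1 ∨ E = EG4 ∨ E = fun s => Real.exp (-s)) {Fl : ℝ → ℝ}
    (hF : ∀ t : ℝ, 0 < t → t ≤ 1 → ∫ x in (0 : ℝ)..t, Fl x = E t - 1 + t)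
    {Nj : ℕ → ℕ} (hNj : StrictMono Nj) :
    ¬ ∀ᵐ x : ℝ, x ∈ Set.Ioo (0 : ℝ) 1 → Tendsto (fun j => FF (Nj j) x) atTop (𝓝 (Fl x)) := by
  intro h
  have h1 : ∀ t : ℝ, 0 < t → t ≤ 1 →
      Tendsto (fun j => HH (Nj j) t / (Nj j : ℝ)) atTop (𝓝 (E t - 1 + t)) := by
    intro t ht0 ht1
    rw [← hF t ht0 ht1]
    exact lim_of_ae hNj h ht0 ht1
  rcases hE with hE | hE | hE
  · subst hE
    have h2 := lim_one hRH hNj (h1 1 one_pos le_rfl)
    have h3 := EG1_one
    norm_num at h2 h3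
    linarith
  · subst hE
    exact lim_gse hRH hNj h1
  · subst hE
    have h2 := lim_one hRH hNj (h1 1 one_pos le_rfl)
    have h3 := Real.exp_neg_one_gt_d9
    norm_num at h2 h3
    linarith

/-- the mean of the gaps -/
lemma sum_del (hN : ℕ) : ∑ n ∈ Icc 1 hN, del n =
    (ord (hN + 1) * Real.log (ord (hN + 1)) - ord 1 * Real.log (ord 1)) / (2 * Real.pi) := by
  induction hN with
  | zero => simp
  | succ M ih =>
    rw [Finset.sum_Icc_succ_top (by omega), ih]
    unfold H177.Lat.del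
    ring

/-- few large gaps -/
lemma FF_large : ∀ b : ℝ, 0 < b → ∀ᶠ N : ℕ in atTop, 1 - 3 / b ≤ FF N b := by
  intro b hb
  obtain ⟨n0, hn0, hd⟩ := del_nonneg
  set C2 : ℝ := ∑ n ∈ range n0, |del n| with hC2
  set C3 : ℝ := |ord 1 * Real.log (ord 1) / (2 * Real.pi)| with hC3
  have ev : ∀ᶠ N : ℕ in atTop, C2 + C3 ≤ (N : ℝ) :=
    tendsto_natCast_atTop_atTop.eventually_ge_atTop _
  filter_upwards [W249.TCF.T_le 1 one_pos le_rfl, ev, eventually_gt_atTop 0] with N h1 h2 h3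
  have hN0 : (0 : ℝ) < N := by exact_mod_cast h3
  have e := sum_del N
  have h4 : ∑ n ∈ Icc 1 N, del n ≤ 2 * N + C3 := by
    rw [e, sub_div]
    have := neg_abs_le (ord 1 * Real.log (ord 1) / (2 * Real.pi))
    linarith
  -- the large gaps
  set A := (Icc 1 N).filter (fun n => del n ≤ b) with hA
  set B := (Icc 1 N).filter (fun n => ¬ del n ≤ b) with hB
  have hcard : (A.card : ℝ) + B.card = N := by
    have := Finset.card_filter_add_card_filter_not (s := Icc 1 N) (fun n => del n ≤ b)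
    rw [Nat.card_Icc, Nat.add_sub_cancel] at this
    exact_mod_cast this
  have h5 : (B.card : ℝ) * b ≤ ∑ n ∈ B, del n := by
    rw [← nsmul_eq_mul, ← Finset.sum_const]
    apply Finset.sum_le_sum
    intro n hn
    rw [hB, mem_filter, not_le] at hn
    exact hn.2.le
  have h6 : -C2 ≤ ∑ n ∈ A, del n := by
    have h7 : ∀ n ∈ A, -(if n ∈ range n0 then |del n| else 0) ≤ del n := by
      intro n _
      split_ifs with h
      · exact neg_abs_le _
      · rw [Finset.mem_range, not_lt] at h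
        simpa using hd n h
    refine le_trans ?_ (Finset.sum_le_sum h7)
    rw [Finset.sum_neg_distrib]
    apply neg_le_neg
    rw [← Finset.sum_filter]
    apply Finset.sum_le_sum_of_subset_of_nonneg
    · intro n hn
      exact (Finset.mem_filter.1 hn).2
    · intro n _ _
      exact abs_nonneg _
  have h8 : ∑ n ∈ A, del n + ∑ n ∈ B, del n = ∑ n ∈ Icc 1 N, del n :=
    Finset.sum_filter_add_sum_filter_not _ _ _
  have h9 : (B.card : ℝ) * b ≤ 3 * N := by linarith
  have h10 : (B.card : ℝ) ≤ 3 / b * N := by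
    rw [div_mul_eq_mul_div, le_div_iff₀ hb]
    exact h9
  show 1 - 3 / b ≤ (A.card : ℝ) / N
  rw [le_div_iff₀ hN0]
  linarith

lemma FF_PP (N : ℕ) {a b : ℝ} (hab : a ≤ b) : FF N a = FF N b - PP N a b := by
  unfold FF PP
  rw [← sub_div]
  congr 1
  have h : ((Icc 1 N).filter (fun n => del n ≤ b)).card =
      ((Icc 1 N).filter (fun n => del n ≤ a)).card +
      ((Icc 1 N).filter (fun n => a < del n ∧ del n ≤ b)).card := by
    rw [← card_union_of_disjoint]
    · congr 1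
      ext n
      simp only [mem_filter, mem_union]
      constructor
      · rintro ⟨h1, h2⟩
        rcases le_or_gt (del n) a with h3 | h3
        · exact Or.inl ⟨h1, h3⟩
        · exact Or.inr ⟨h1, h3, h2⟩
      · rintro (⟨h1, h2⟩ | ⟨h1, h2, h3⟩)
        · exact ⟨h1, h2.trans hab⟩
        · exact ⟨h1, h3⟩
    · rw [Finset.disjoint_left]
      intro n h1 h2
      rw [mem_filter] at h1 h2
      linarith [h1.2, h2.2.1]
  rw [h]
  push_cast
  ring

/-- from intervals to distribution functions -/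
lemma F_of_int {Fl : ℝ → ℝ} {Nj : ℕ → ℕ} (hNj : StrictMono Nj) (hinf : Tendsto Fl atTop (𝓝 1))
    (h : ∀ a b : ℝ, 0 ≤ a → a < b → Tendsto (fun j => PP (Nj j) a b) atTop (𝓝 (Fl b - Fl a)))
    {x : ℝ} (hx : 0 ≤ x) : Tendsto (fun j => FF (Nj j) x) atTop (𝓝 (Fl x)) := by
  rw [Metric.tendsto_atTop]
  intro ε hε
  -- choice of `b`
  have h1 : ∀ᶠ b : ℝ in atTop, |Fl b - 1| < ε / 4 := by
    have := (Metric.tendsto_nhds.1 hinf) (ε / 4) (by positivity)
    simpa [Real.dist_eq] using this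
  have h2 : ∀ᶠ b : ℝ in atTop, 3 / b < ε / 4 := by
    have h3 : Tendsto (fun b : ℝ => 3 / b) atTop (𝓝 0) := tendsto_id.const_div_atTop 3
    exact h3.eventually (gt_mem_nhds (by positivity))
  obtain ⟨b, ⟨hb1, hb2⟩, hb3⟩ := ((h1.and h2).and (eventually_gt_atTop (max x 0))).exists
  have hxb : x < b := (le_max_left _ _).trans_lt hb3
  have hb0 : 0 < b := (le_max_right _ _).trans_lt hb3
  have h4 := h x b hx hxb
  rw [Metric.tendsto_atTop] at h4
  obtain ⟨J1, hJ1⟩ := h4 (ε / 4) (by positivity)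
  obtain ⟨J2, hJ2⟩ := (hNj.tendsto_atTop.eventually (FF_large b hb0)).exists_forall_of_atTop
  refine ⟨max J1 J2, fun j hj => ?_⟩
  have h5 := hJ1 j ((le_max_left _ _).trans hj)
  have h6 := hJ2 j ((le_max_right _ _).trans hj)
  have h7 := (FF_mem (Nj j) b).2
  rw [Real.dist_eq] at h5 ⊢
  rw [FF_PP _ hxb.le]
  rw [abs_lt] at h5 hb1 ⊢
  constructor <;> linarith

/-- the three laws, interval form -/
theorem no_int (hRH : RiemannHypothesis) {E : ℝ → ℝ}
    (hE : E = EG1 ∨ E = EG4 ∨ E = fun s => Real.exp (-s)) {Fl : ℝ → ℝ}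
    (hF : ∀ t : ℝ, 0 < t → t ≤ 1 → ∫ x in (0 : ℝ)..t, Fl x = E t - 1 + t)
    (hinf : Tendsto Fl atTop (𝓝 1)) {Nj : ℕ → ℕ} (hNj : StrictMono Nj) :
    ∃ a b : ℝ, 0 ≤ a ∧ a < b ∧ ¬ Tendsto (fun j => PP (Nj j) a b) atTop (𝓝 (Fl b - Fl a)) := by
  by_contra hcon
  push Not at hcon
  apply no_ae hRH hE hF hNj
  refine Eventually.of_forall fun x hx => ?_
  exact F_of_int hNj hinf hcon hx.1.le

end Pool.Agent.E8helper28.GS
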