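import Pool.Agent.Y747.Kern
import Pool.Agent.E8helper28.RM.Num

/-! The test function and its certificate. -/

open Filter Topology Set

namespace Pool.Agent.E8helper28.GS

open Pool.Agent.TH873.EW Pool.Agent.Y747
open Pool.Agent.E8helper28.RM (K K_le K_even K_zero)

/-- the piecewise linear test function -/
noncomputable def Ph (x : ℝ) : ℝ :=
  0.765 * max 0 (1 - x) + 0.48 * max 0 (0.8 - x) + 0.2 * max 0 (0.6 - x)

lemma Ph_nonneg (x : ℝ) : 0 ≤ Ph x := by
  unfold Ph
  positivity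

lemma Ph_anti {x y : ℝ} (h : x ≤ y) : Ph y ≤ Ph x := by
  unfold Ph
  gcongr

lemma Ph_zero_of {x : ℝ} (h : 1 ≤ x) : Ph x = 0 := by
  unfold Ph
  rw [max_eq_left (by linarith), max_eq_left (by linarith), max_eq_left (by linarith)]
  ring

lemma max_lip (a x y : ℝ) : max 0 (a - x) ≤ max 0 (a - y) + |x - y| := by
  apply max_le
  · positivity
  · have h1 := le_max_right 0 (a - y)
    have h2 := neg_abs_le (x - y)
    linarith

lemma Ph_lip (x y : ℝ) : Ph x ≤ Ph y + 1.445 * |x - y| := by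
  unfold Ph
  have h1 := max_lip 1 x y
  have h2 := max_lip 0.8 x y
  have h3 := max_lip 0.6 x y
  linarith

lemma max_conv (a : ℝ) : ConvexOn ℝ Set.univ (fun x : ℝ => max 0 (a - x)) := by
  have h1 : ConvexOn ℝ Set.univ (fun _ : ℝ => (0 : ℝ)) := convexOn_const 0 convex_univ
  have h2 : ConvexOn ℝ Set.univ (fun x : ℝ => a - x) :=
    (convexOn_const a convex_univ).sub (concaveOn_id convex_univ)
  exact h1.sup h2

lemma Ph_conv : ConvexOn ℝ Set.univ Ph := by
  have h1 := (max_conv 1).smul (show (0 : ℝ) ≤ 0.765 by norm_num)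
  have h2 := (max_conv 0.8).smul (show (0 : ℝ) ≤ 0.48 by norm_num)
  have h3 := (max_conv 0.6).smul (show (0 : ℝ) ≤ 0.2 by norm_num)
  exact (h1.add h2).add h3

lemma Ph_cont : Continuous Ph := by
  unfold Ph
  fun_prop

/-- upper polynomial for `sinc (π x)` -/
noncomputable def Up (x : ℝ) : ℝ :=
  1 - 164493 / 100000 * x ^ 2 + 81175 / 100000 * x ^ 4 - 19075 / 100000 * x ^ 6 +
    2615 / 100000 * x ^ 8

lemma K_le_Up (x : ℝ) : K x ≤ Up x := by
  refine (K_le 2 x).trans ?_
  obtain ⟨p1, p2⟩ := pi_sq_bounds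
  have p4 : Real.pi ^ 4 ≤ 97.41 := by
    have : Real.pi ^ 4 = (Real.pi ^ 2) ^ 2 := by ring
    rw [this]
    have h3 : Real.pi ^ 2 < 9.86965 := by
      have h1 := Real.pi_gt_d6
      have h2 := Real.pi_lt_d6
      nlinarith
    nlinarith
  have h3' : 9.8696 < Real.pi ^ 2 := p1
  have p6 : 961.38 ≤ Real.pi ^ 6 := by
    have e : Real.pi ^ 6 = (Real.pi ^ 2) ^ 3 := by ring
    rw [e]
    calc (961.38 : ℝ) ≤ 9.8696 ^ 3 := by norm_num
      _ ≤ (Real.pi ^ 2) ^ 3 := by gcongr
  have p8 : Real.pi ^ 8 ≤ 9489.3 := by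
    have e : Real.pi ^ 8 = (Real.pi ^ 2) ^ 4 := by ring
    rw [e]
    have h3 : Real.pi ^ 2 < 9.86965 := by
      have h1 := Real.pi_gt_d6
      have h2 := Real.pi_lt_d6
      nlinarith
    calc (Real.pi ^ 2) ^ 4 ≤ 9.86965 ^ 4 := by gcongr
      _ ≤ 9489.3 := by norm_num
  have e : ∑ j ∈ Finset.range (2 * 2 + 1),
      (-1 : ℝ) ^ j * (Real.pi ^ 2) ^ j * x ^ (2 * j) / ((2 * j + 1).factorial : ℝ) =
      1 - Real.pi ^ 2 / 6 * x ^ 2 + Real.pi ^ 4 / 120 * x ^ 4 - Real.pi ^ 6 / 5040 * x ^ 6 +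
        Real.pi ^ 8 / 362880 * x ^ 8 := by
    norm_num [Finset.sum_range_succ, Nat.factorial]
    ring
  rw [e]
  unfold Up
  have a1 : 164493 / 100000 * x ^ 2 ≤ Real.pi ^ 2 / 6 * x ^ 2 :=
    mul_le_mul_of_nonneg_right (by linarith) (by positivity)
  have a2 : Real.pi ^ 4 / 120 * x ^ 4 ≤ 81175 / 100000 * x ^ 4 :=
    mul_le_mul_of_nonneg_right (by linarith) (by positivity)
  have a3 : 19075 / 100000 * x ^ 6 ≤ Real.pi ^ 6 / 5040 * x ^ 6 :=
    mul_le_mul_of_nonneg_right (by linarith) (by positivity)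
  have a4 : Real.pi ^ 8 / 362880 * x ^ 8 ≤ 2615 / 100000 * x ^ 8 :=
    mul_le_mul_of_nonneg_right (by linarith) (by positivity)
  linarith

lemma K_nonneg {x : ℝ} (h0 : 0 ≤ x) (h1 : x ≤ 1) : 0 ≤ K x := by
  unfold K
  have hpi := Real.pi_pos
  rcases eq_or_lt_of_le h0 with h | h
  · rw [← h]; simp
  · rw [Real.sinc_of_ne_zero (by positivity)]
    apply div_nonneg _ (by positivity)
    apply Real.sin_nonneg_of_nonneg_of_le_pi (by positivity)
    nlinarith

lemma K_sq_le {x : ℝ} (h0 : 0 ≤ x) (h1 : x ≤ 1) : K x ^ 2 ≤ Up x ^ 2 :=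
  pow_le_pow_left₀ (K_nonneg h0 h1) (K_le_Up x) 2

lemma cA (x : ℝ) (h0 : 0 ≤ x) (h1 : x ≤ (3 / 5)) :
    0 ≤ (1 - x ^ 2) * (1269 / 1000 - 1445 / 1000 * x) - Up x ^ 2 := by
  obtain ⟨u, hu⟩ : ∃ u, u = x - 0 := ⟨_, rfl⟩
  obtain ⟨v, hv⟩ : ∃ v, v = (3 / 5) - x := ⟨_, rfl⟩
  have hu0 : 0 ≤ u := by rw [hu]; linarith
  have hv0 : 0 ≤ v := by rw [hv]; linarith
  have e : (1 - x ^ 2) * (1269 / 1000 - 1445 / 1000 * x) - Up x ^ 2 =
      (328369140625 / 344373768) * v ^ 16 +
      (4195556640625 / 344373768) * u * v ^ 15 +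
      (16278083984375 / 229582512) * u ^ 2 * v ^ 14 +
      (85574041015625 / 344373768) * u ^ 3 * v ^ 13 +
      (25749196407225775 / 44079842304) * u ^ 4 * v ^ 12 +
      (3567225719725775 / 3673320192) * u ^ 5 * v ^ 11 +
      (12936162912901025 / 11019960576) * u ^ 6 * v ^ 10 +
      (1443613916771875 / 1377495072) * u ^ 7 * v ^ 9 +
      (429572907252191 / 612220032) * u ^ 8 * v ^ 8 +
      (15741096979784 / 43046721) * u ^ 9 * v ^ 7 +
      (224450412421835743 / 1377495072000) * u ^ 10 * v ^ 6 +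
      (16137654508863743 / 229582512000) * u ^ 11 * v ^ 5 +
      (1245096440259931 / 43046721000) * u ^ 12 * v ^ 4 +
      (1631735507674681 / 172186884000) * u ^ 13 * v ^ 3 +
      (5856901431462019 / 2869781400000) * u ^ 14 * v ^ 2 +
      (1015191668614157 / 4304672100000) * u ^ 15 * v +
      (41069786982154679 / 4304672100000000) * u ^ 16 := by
    rw [hu, hv]
    unfold Up
    ring
  rw [e]
  positivity

lemma cB (x : ℝ) (h0 : (1 / 5) ≤ x) (h1 : x ≤ (2 / 5)) :
    0 ≤ (1 - x) ^ 2 * (2 - x) * (1245 / 1000 * x - 96 / 1000) - x * Up x ^ 2 := by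
  obtain ⟨u, hu⟩ : ∃ u, u = x - (1 / 5) := ⟨_, rfl⟩
  obtain ⟨v, hv⟩ : ∃ v, v = (2 / 5) - x := ⟨_, rfl⟩
  have hu0 : 0 ≤ u := by rw [hu]; linarith
  have hv0 : 0 ≤ v := by rw [hv]; linarith
  have e : (1 - x) ^ 2 * (2 - x) * (1245 / 1000 * x - 96 / 1000) - x * Up x ^ 2 =
      (93680911326021399 / 100000000) * v ^ 17 +
      (2758306744225337283 / 50000000) * u * v ^ 16 +
      (17191602855186330389 / 25000000) * u ^ 2 * v ^ 15 +
      (5459335586360809257 / 1250000) * u ^ 3 * v ^ 14 +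
      (43993577884466627223 / 2500000) * u ^ 4 * v ^ 13 +
      (2480413071558701031567 / 50000000) * u ^ 5 * v ^ 12 +
      (10316840910400285781411 / 100000000) * u ^ 6 * v ^ 11 +
      (8162031074614745855753 / 50000000) * u ^ 7 * v ^ 10 +
      (2000376873979143563189 / 10000000) * u ^ 8 * v ^ 9 +
      (957498218476605606689 / 5000000) * u ^ 9 * v ^ 8 +
      (14340590207003559531173 / 100000000) * u ^ 10 * v ^ 7 +
      (8352444297489438160777 / 100000000) * u ^ 11 * v ^ 6 +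
      (14928064114970467297983 / 400000000) * u ^ 12 * v ^ 5 +
      (499418349207476671191 / 40000000) * u ^ 13 * v ^ 4 +
      (30034625187120948063 / 10000000) * u ^ 14 * v ^ 3 +
      (12118500381785017063 / 25000000) * u ^ 15 * v ^ 2 +
      (1150212740392211547 / 25000000) * u ^ 16 * v +
      (23237771227653591 / 12500000) * u ^ 17 := by
    rw [hu, hv]
    unfold Up
    ring
  rw [e]
  positivity

lemma cC (x : ℝ) (h0 : 0 ≤ x) (h1 : x ≤ (1 / 5)) :
    0 ≤ 765 / 1000 * ((1 - x) ^ 2 * (2 - x)) - Up x ^ 2 := by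
  obtain ⟨u, hu⟩ : ∃ u, u = x - 0 := ⟨_, rfl⟩
  obtain ⟨v, hv⟩ : ∃ v, v = (1 / 5) - x := ⟨_, rfl⟩
  have hu0 : 0 ≤ u := by rw [hu]; linarith
  have hv0 : 0 ≤ v := by rw [hv]; linarith
  have e : 765 / 1000 * ((1 - x) ^ 2 * (2 - x)) - Up x ^ 2 =
      (323486328125 / 4) * v ^ 16 +
      (9417724609375 / 8) * u * v ^ 15 +
      (127878404296875 / 16) * u ^ 2 * v ^ 14 +
      (268584962890625 / 8) * u ^ 3 * v ^ 13 +
      (99930000551323775 / 1024) * u ^ 4 * v ^ 12 +
      (53230799966471325 / 256) * u ^ 5 * v ^ 11 +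
      (85897894383201925 / 256) * u ^ 6 * v ^ 10 +
      (3341032751918875 / 8) * u ^ 7 * v ^ 9 +
      (51753393129936479 / 128) * u ^ 8 * v ^ 8 +
      304591246159144 * u ^ 9 * v ^ 7 +
      (5670404089133493607 / 32000) * u ^ 10 * v ^ 6 +
      (1252266353098224821 / 16000) * u ^ 11 * v ^ 5 +
      (101843001197174409 / 4000) * u ^ 12 * v ^ 4 +
      (23149400904829101 / 4000) * u ^ 13 * v ^ 3 +
      (166706891103358753 / 200000) * u ^ 14 * v ^ 2 +
      (6106037496634053 / 100000) * u ^ 15 * v +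
      (93680911326021399 / 100000000) * u ^ 16 := by
    rw [hu, hv]
    unfold Up
    ring
  rw [e]
  positivity

/-- the kernel is below the test function -/
theorem ct_le_Ph {x : ℝ} (h0 : 0 ≤ x) : ct (gk 1 (-1) 0) x ≤ Ph x := by
  rcases le_or_gt 1 x with h1 | h1
  · refine le_trans ?_ (Ph_nonneg x)
    rw [ct_gk_one_form (by linarith)]
    apply div_nonpos_of_nonpos_of_nonneg _ (by positivity)
    apply mul_nonpos_of_nonpos_of_nonneg _ (by positivity)
    unfold Np
    nlinarith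
  rcases le_or_gt x (3 / 5) with h2 | h2
  · rw [ct_gk_zero_form (by rw [abs_of_nonneg h0]; exact h1)]
    have hp : 0 < 1 - x ^ 2 := by nlinarith
    have e1 : Np 1 (-1) 0 (x ^ 2) = 1 - x ^ 2 := by unfold Np; ring
    have e2 : Ph x = 1269 / 1000 - 1445 / 1000 * x := by
      unfold Ph
      rw [max_eq_right (by linarith), max_eq_right (by linarith), max_eq_right (by linarith)]
      ring
    rw [e1, e2, div_le_iff₀ (by positivity)]
    have h3 := K_sq_le h0 h1.le
    have h4 := cA x h0 (by linarith)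
    have h5 : K x ^ 2 ≤ (1 - x ^ 2) * (1269 / 1000 - 1445 / 1000 * x) := by linarith
    have h6 := mul_le_mul_of_nonneg_left h5 hp.le
    have e3 : Real.sinc (Real.pi * x) = K x := rfl
    rw [e3]
    linarith
  · rw [ct_gk_one_form (by linarith)]
    have e3 : Real.sinc (Real.pi * (x - 1)) = K (1 - x) := by
      rw [← K_even]
      unfold K
      congr 1
      ring
    obtain ⟨y, hy⟩ : ∃ y, y = 1 - x := ⟨_, rfl⟩
    have hx : x = 1 - y := by rw [hy]; ring
    rw [e3, ← hy]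
    have hy0 : 0 ≤ y := by linarith
    have hy1 : y ≤ 2 / 5 := by linarith
    have h3 := K_sq_le hy0 (by linarith)
    have e1 : Np 1 (-1) 0 (x ^ 2) = y * (1 + x) := by unfold Np; rw [hy]; ring
    have hx0 : 0 < x := by linarith
    have e4 : Np 1 (-1) 0 (x ^ 2) * K y ^ 2 / (x ^ 2 * (1 + x) ^ 2) =
        y * K y ^ 2 / ((1 - y) ^ 2 * (2 - y)) := by
      rw [e1, hx]
      have h5 : (1 - y) ≠ 0 := by linarith
      have h6 : (2 - y) ≠ 0 := by linarith
      have h7 : 1 + (1 - y) = 2 - y := by ring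
      rw [h7]
      field_simp
    have hD : 0 < (1 - y) ^ 2 * (2 - y) := by
      have : 0 < 1 - y := by linarith
      have : 0 < 2 - y := by linarith
      positivity
    rw [e4, div_le_iff₀ hD]
    have h8 : y * K y ^ 2 ≤ y * Up y ^ 2 := mul_le_mul_of_nonneg_left h3 hy0
    refine h8.trans ?_
    rcases le_or_gt y (1 / 5) with h9 | h9
    · have e2 : Ph x = 765 / 1000 * y := by
        unfold Ph
        rw [max_eq_right (by linarith), max_eq_left (by linarith), max_eq_left (by linarith), hx]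
        ring
      rw [e2]
      have h10 := cC y hy0 h9
      have h11 : Up y ^ 2 ≤ 765 / 1000 * ((1 - y) ^ 2 * (2 - y)) := by linarith
      have h12 := mul_le_mul_of_nonneg_left h11 hy0
      linarith
    · have e2 : Ph x = 1245 / 1000 * y - 96 / 1000 := by
        unfold Ph
        rw [max_eq_right (by linarith), max_eq_right (by linarith), max_eq_left (by linarith), hx]
        ring
      rw [e2]
      have h10 := cB y h9.le hy1
      linarith

end Pool.Agent.E8helper28.GS
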