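import Pool.Agent.Y747.Gp
import Pool.Agent.H177R3.LatE
import Pool.Agent.E8helper28.GS.Comb

/-! The far pairs. -/

open Finset

namespace Pool.Agent.E8helper28.GS

open Pool.Agent.Y747 Pool.Agent.TH873.EW
open SG (ord NZ)
open H177.Lat (kI yy)

/-- the window of a point -/
lemma window {V x : ℝ} (hV : 0 < V) (h1 : V < x) (h2 : x < 2 * V) :
    ∃ j ∈ range 16, V + j * (V / 16) < x ∧ x ≤ V + j * (V / 16) + V / 16 := by
  set z := (x - V) * 16 / V with hz
  have hz0 : 0 < z := by
    have : 0 < x - V := by linarith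
    positivity
  have hz16 : z < 16 := by
    rw [hz, div_lt_iff₀ hV]
    linarith
  have hc1 : 0 < ⌈z⌉₊ := Nat.ceil_pos.2 hz0
  have hc2 : z ≤ ⌈z⌉₊ := Nat.le_ceil z
  have hc3 : (⌈z⌉₊ : ℝ) < z + 1 := Nat.ceil_lt_add_one hz0.le
  have hc4 : ⌈z⌉₊ ≤ 16 := Nat.ceil_le.2 (by exact_mod_cast hz16.le)
  have e : ((⌈z⌉₊ - 1 : ℕ) : ℝ) = (⌈z⌉₊ : ℝ) - 1 := by
    rw [Nat.cast_sub hc1]
    simp
  have hx : x = V + z * (V / 16) := by
    rw [hz]
    field_simp
    ring
  refine ⟨⌈z⌉₊ - 1, by rw [mem_range]; omega, ?_, ?_⟩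
  · rw [e]
    have : ((⌈z⌉₊ : ℝ) - 1) * (V / 16) < z * (V / 16) :=
      mul_lt_mul_of_pos_right (by linarith) (by positivity)
    linarith
  · rw [e]
    have : z * (V / 16) ≤ (⌈z⌉₊ : ℝ) * (V / 16) :=
      mul_le_mul_of_nonneg_right hc2 (by positivity)
    linarith

/-- pairs far apart in index but close in height -/
theorem far_pairs (hRH : RiemannHypothesis) : ∃ C V0 : ℝ, 0 < C ∧ 10 ≤ V0 ∧
    ∀ V : ℝ, V0 ≤ V → ∀ lam : ℝ, Real.log V / (4 * Real.pi) ≤ lam → ∀ K : ℕ, 1 ≤ K →
      ∑ n ∈ Bx V, (((Bx V).filter (fun m => n + K < m ∧ lam * (ord m - ord n) < 1)).card : ℝ) ≤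
        C / K * XV V := by
  classical
  obtain ⟨C, T0, hC, hT0, h⟩ := H177.Lat.third hRH (1 / 2) 2 (by norm_num) (by norm_num)
    (by norm_num)
  refine ⟨4 * C, max T0 256, by positivity, le_max_of_le_right (by norm_num),
    fun V hV lam hlam K hK => ?_⟩
  have hVT : T0 ≤ V := (le_max_left _ _).trans hV
  have hV256 : 256 ≤ V := (le_max_right _ _).trans hV
  have hV0 : 0 < V := by linarith
  have hpi := Real.pi_pos
  have hpi4 := Real.pi_lt_four
  have hL1 : 1 ≤ Real.log V := by
    rw [Real.le_log_iff_exp_le hV0]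
    have := Real.exp_one_lt_d9
    linarith
  set L := Real.log V with hL
  have hK0 : (0 : ℝ) < K := by exact_mod_cast hK
  have hlam0 : 0 < lam := lt_of_lt_of_le (by positivity) hlam
  -- the windows
  set t : ℕ → ℝ := fun j => V + j * (V / 16) with ht
  set I : ℕ → Finset ℕ := fun j => Finset.Ioc (NZ (t j)) (NZ (t j + V / 8)) with hI
  have hsq : V ^ (1 / 2 : ℝ) ≤ V / 8 := by
    rw [← Real.sqrt_eq_rpow]
    rw [Real.sqrt_le_left (by positivity)]
    nlinarith
  have hmom : ∀ j ∈ range 16, ∑ n ∈ I j, (kI (I j) (yy V) 2 n : ℝ) ^ 2 ≤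
      C * (V / 8 * L / (2 * Real.pi)) := by
    intro j hj
    rw [mem_range] at hj
    have hj' : (j : ℝ) ≤ 16 := by exact_mod_cast hj.le
    apply h V hVT (V / 8) hsq le_rfl (t j)
    · simp only [ht]
      have : 0 ≤ (j : ℝ) * (V / 16) := by positivity
      linarith
    · simp only [ht]
      have : (j : ℝ) * (V / 16) ≤ 16 * (V / 16) := mul_le_mul_of_nonneg_right hj' (by positivity)
      linarith
  -- the bound at one point
  have hone : ∀ n ∈ Bx V, (K : ℝ) *
      (((Bx V).filter (fun m => n + K < m ∧ lam * (ord m - ord n) < 1)).card : ℝ) ≤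
      ∑ j ∈ range 16, if n ∈ I j then (kI (I j) (yy V) 2 n : ℝ) ^ 2 else 0 := by
    intro n hn
    rw [mem_Bx] at hn
    obtain ⟨hn1, hn2, hn3⟩ := hn
    obtain ⟨j, hj, hj1, hj2⟩ := window (x := ord n) hV0 (by linarith) (by linarith)
    have hnI : n ∈ I j := by
      simp only [hI, mem_Ioc]
      constructor
      · by_contra hc
        rw [not_lt] at hc
        have := (SG.ord_le_iff hn1 (t j)).2 hc
        simp only [ht] at this
        linarith
      · apply (SG.ord_le_iff hn1 _).1
        simp only [ht]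
        linarith
    have hsingle := Finset.single_le_sum (f := fun j => if n ∈ I j then
      (kI (I j) (yy V) 2 n : ℝ) ^ 2 else 0) (s := range 16)
      (fun i _ => by
        show 0 ≤ (if n ∈ I i then (kI (I i) (yy V) 2 n : ℝ) ^ 2 else 0)
        split_ifs <;> positivity) hj
    rw [if_pos hnI] at hsingle
    refine le_trans ?_ hsingle
    set A := (Bx V).filter (fun m => n + K < m ∧ lam * (ord m - ord n) < 1) with hA
    rcases A.eq_empty_or_nonempty with hE | ⟨m0, hm0⟩
    · rw [hE]
      simp only [card_empty, Nat.cast_zero, mul_zero]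
      positivity
    · -- points near `n`
      have hnear : ∀ m : ℕ, n ≤ m → lam * (ord m - ord n) < 1 →
          m ∈ (I j).filter (fun n' => |yy V n - yy V n'| ≤ 2) := by
        intro m hm hm2
        have hm1 : 1 ≤ m := by omega
        have hmono : ord n ≤ ord m := SG.ord_mono hn1 hm
        have hd0 : 0 ≤ ord m - ord n := by linarith
        have hd : L / (4 * Real.pi) * (ord m - ord n) ≤ 1 :=
          (mul_le_mul_of_nonneg_right hlam hd0).trans hm2.le
        have hd2 : (ord m - ord n) * L ≤ 4 * Real.pi := by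
          rw [div_mul_eq_mul_div, div_le_one (by positivity)] at hd
          linarith
        have hd3 : ord m - ord n ≤ V / 16 := by
          nlinarith
        rw [mem_filter]
        constructor
        · simp only [hI, mem_Ioc]
          constructor
          · by_contra hc
            rw [not_lt] at hc
            have := (SG.ord_le_iff hm1 (t j)).2 hc
            simp only [ht] at this
            linarith
          · apply (SG.ord_le_iff hm1 _).1
            simp only [ht]
            linarith
        · unfold yy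
          rw [abs_sub_comm, abs_of_nonneg]
          · rw [← sub_div, ← sub_mul, div_le_iff₀ (by positivity)]
            linarith
          · rw [← sub_div, ← sub_mul]
            positivity
      have c1 : A.card ≤ kI (I j) (yy V) 2 n := by
        unfold H177.Lat.kI
        apply card_le_card
        intro m hm
        rw [hA, mem_filter] at hm
        exact hnear m (by omega) hm.2.2
      have c2 : K ≤ kI (I j) (yy V) 2 n := by
        unfold H177.Lat.kI
        have : K = (Finset.Ioc n (n + K)).card := by rw [Nat.card_Ioc]; omega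
        conv_lhs => rw [this]
        apply card_le_card
        intro m hm
        rw [mem_Ioc] at hm
        rw [hA, mem_filter] at hm0
        apply hnear m (by omega)
        have h1 : ord m ≤ ord m0 := SG.ord_mono (by omega) (by omega)
        have h2 : lam * (ord m - ord n) ≤ lam * (ord m0 - ord n) :=
          mul_le_mul_of_nonneg_left (by linarith) hlam0.le
        linarith [hm0.2.2]
      have c1' : (A.card : ℝ) ≤ kI (I j) (yy V) 2 n := by exact_mod_cast c1
      have c2' : (K : ℝ) ≤ kI (I j) (yy V) 2 n := by exact_mod_cast c2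
      rw [pow_two]
      exact mul_le_mul c2' c1' (Nat.cast_nonneg _) (Nat.cast_nonneg _)
  have hsum := Finset.sum_le_sum hone
  rw [← Finset.mul_sum, Finset.sum_comm] at hsum
  have hj : ∀ j ∈ range 16, ∑ n ∈ Bx V, (if n ∈ I j then (kI (I j) (yy V) 2 n : ℝ) ^ 2 else 0) ≤
      C * (V / 8 * L / (2 * Real.pi)) := by
    intro j hj
    refine le_trans ?_ (hmom j hj)
    rw [← Finset.sum_filter]
    apply Finset.sum_le_sum_of_subset_of_nonneg
    · intro n hn
      exact (mem_filter.1 hn).2
    · intro n _ _
      positivity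
  have hsum2 := hsum.trans (Finset.sum_le_sum hj)
  rw [Finset.sum_const, card_range, nsmul_eq_mul] at hsum2
  rw [div_mul_eq_mul_div, le_div_iff₀ hK0, mul_comm]
  refine hsum2.trans ?_
  unfold XV
  rw [← hL]
  have e1 : ((16 : ℕ) : ℝ) * (C * (V / 8 * L / (2 * Real.pi))) =
      C * (L / (2 * Real.pi)) * (2 * V) := by
    push_cast
    ring
  have e2 : 4 * C * ((V - 2) * L / (2 * Real.pi)) = C * (L / (2 * Real.pi)) * (4 * (V - 2)) := by
    ring
  rw [e1, e2]
  apply mul_le_mul_of_nonneg_left (by linarith) (by positivity)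

end Pool.Agent.E8helper28.GS
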